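import Mathlib
import Pool.Agent.H21.Grig

namespace Pool.Agent.Results.MP_40d7e0_al.Depth

open Pool.Agent.H21.Grig

def Small (g : G) (n : ℕ) : Prop :=
  ∀ u : List Bool, u.length = n → ∃ s : Equiv.Perm (List Bool), (s = 1 ∨ ∃ i, s = genPerm i) ∧
    ∀ w, g.1 (u ++ w) = g.1 u ++ s w

noncomputable def depth (g : G) : ℕ := sInf {n | Small g n}

def Sec (g : G) (x : Bool) (h : G) : Prop := ∃ y, ∀ w, g.1 (x :: w) = y :: h.1 w

lemma len_one : len 1 = 0 := Nat.le_zero.1 (len_le [])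

lemma sec_gen (i : Fin 4) (x : Bool) :
    ∃ h, len h ≤ (if i = 0 then 0 else 1) ∧ Sec (ev [i]) x h := by
  fin_cases i <;> cases x
  · exact ⟨1, len_one.le, true, fun _ => rfl⟩
  · exact ⟨1, len_one.le, false, fun _ => rfl⟩
  · exact ⟨ev [0], len_le _, false, fun _ => rfl⟩
  · exact ⟨ev [2], len_le _, true, fun _ => rfl⟩
  · exact ⟨ev [0], len_le _, false, fun _ => rfl⟩
  · exact ⟨ev [3], len_le _, true, fun _ => rfl⟩
  · exact ⟨1, by simp [len_one], false, fun _ => rfl⟩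
  · exact ⟨ev [1], len_le _, true, fun _ => rfl⟩

lemma sec_mul {g : G} {a b : ℕ} (g' : G) (h : ∀ x, ∃ s, len s ≤ a ∧ Sec g x s)
    (h' : ∀ x, ∃ s, len s ≤ b ∧ Sec g' x s) (x : Bool) :
    ∃ s, len s ≤ a + b ∧ Sec (g * g') x s := by
  obtain ⟨s', l', y', e'⟩ := h' x
  obtain ⟨s, l, y, e⟩ := h y'
  exact ⟨s * s', (len_mul _ _).trans (Nat.add_le_add l l'), y, fun w => by simp [e', e]⟩

lemma bcd (w : List Bool) : gen 1 (gen 2 w) = gen 3 w ∧ gen 2 (gen 3 w) = gen 1 w ∧
    gen 3 (gen 1 w) = gen 2 w ∧ gen 2 (gen 1 w) = gen 3 w ∧ gen 3 (gen 2 w) = gen 1 w ∧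
    gen 1 (gen 3 w) = gen 2 w := by
  induction w with
  | nil => simp [gen]
  | cons x w ih => cases x <;> simp [gen, ih, gen_invol 0 w]

lemma len_two {i j : Fin 4} (hi : i ≠ 0) (hj : j ≠ 0) : len (ev [i] * ev [j]) ≤ 1 := by
  have key : ∀ k : Fin 4, (∀ w, gen i (gen j w) = gen k w) → len (ev [i] * ev [j]) ≤ 1 :=
    fun k h => (Subtype.ext (Equiv.ext h) : ev [i] * ev [j] = ev [k]) ▸ len_le [k]
  by_cases e : i = j
  · subst e
    rw [(Subtype.ext (Equiv.ext (gen_invol i)) : ev [i] * ev [i] = 1), len_one]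
    omega
  fin_cases i <;> fin_cases j <;> simp at hi hj e
  · exact key 3 fun w => (bcd w).1
  · exact key 2 fun w => (bcd w).2.2.2.2.2
  · exact key 3 fun w => (bcd w).2.2.2.1
  · exact key 1 fun w => (bcd w).2.1
  · exact key 2 fun w => (bcd w).2.2.1
  · exact key 1 fun w => (bcd w).2.2.2.2.1

lemma sec_len (n : ℕ) : ∀ g : G, len g ≤ n → ∀ x, ∃ s, len s ≤ (n + 1) / 2 ∧ Sec g x s := by
  induction n using Nat.strong_induction_on with
  | _ n ih =>
  intro g hg x
  obtain ⟨u, rfl, hu⟩ := exists_geo g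
  rcases u with _ | ⟨i, _ | ⟨j, u⟩⟩
  · exact ⟨1, by simp [len_one], x, fun _ => rfl⟩
  · obtain ⟨h, l, s⟩ := sec_gen i x
    simp only [List.length_singleton] at hu
    exact ⟨h, by split_ifs at l <;> omega, s⟩
  · simp only [List.length_cons] at hu
    have e : ev (i :: j :: u) = ev [i] * ev [j] * ev u := by rw [← ev_append, ← ev_append]; rfl
    have lu := len_le u
    by_cases h : i = 0 ∨ j = 0
    · obtain ⟨s, l, hs⟩ := sec_mul (ev u) (sec_mul _ (sec_gen i) (sec_gen j))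
        (ih (n - 2) (by omega) (ev u) (by omega)) x
      refine ⟨s, ?_, e ▸ hs⟩
      split_ifs at l <;> first | omega | tauto
    · push Not at h
      have := len_mul (ev [i] * ev [j]) (ev u)
      have := len_two h.1 h.2
      rw [e] at hu
      omega

lemma small_succ {g : G} {n : ℕ} (h : ∀ x, ∃ s, Small s n ∧ Sec g x s) : Small g (n + 1) := by
  rintro (_ | ⟨x, u⟩) hu
  · simp at hu
  obtain ⟨s, hs, y, e⟩ := h x
  obtain ⟨t, ht, e'⟩ := hs u (by simpa using hu)
  exact ⟨t, ht, fun w => by simp [e, e']⟩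

lemma small_zero {g : G} (h : len g ≤ 1) : Small g 0 := by
  intro u hu
  obtain rfl := List.length_eq_zero_iff.1 hu
  obtain ⟨v, rfl, hv⟩ := exists_geo g
  rcases v with _ | ⟨i, _ | ⟨j, u⟩⟩
  · exact ⟨1, Or.inl rfl, fun _ => rfl⟩
  · exact ⟨genPerm i, Or.inr ⟨i, rfl⟩, fun w => by simp [ev, gp_apply, gen]⟩
  · simp only [List.length_cons] at hv; omega

lemma small_up (k : ℕ) : ∀ g : G, len g ≤ 2 ^ k + 1 → Small g (k + 1) := by
  induction k with
  | zero =>
    refine fun g hg => small_succ fun x => ?_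
    obtain ⟨s, l, hs⟩ := sec_len _ g hg x
    exact ⟨s, small_zero (by simpa using l), hs⟩
  | succ k ih =>
    refine fun g hg => small_succ fun x => ?_
    obtain ⟨s, l, hs⟩ := sec_len _ g hg x
    exact ⟨s, ih s (by omega), hs⟩

lemma ev_root (u : List (Fin 4)) : (ev u).1 [] = [] := by
  induction u with
  | nil => rfl
  | cons i u ih =>
    have : (ev (i :: u)).1 [] = gen i ((ev u).1 []) := rfl
    rw [this, ih]; simp [gen]

lemma lift2 (u : List (Fin 4)) : ∃ (v : List (Fin 4)) (t : Equiv.Perm (List Bool)),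
    v.count 0 = 2 * u.count 0 ∧ v.length = u.length + 2 * u.count 0 ∧ Pr (ev v) t (ev u) := by
  induction u with
  | nil => exact ⟨[], 1, rfl, rfl, fun _ => rfl, fun _ => rfl⟩
  | cons i u ih =>
    obtain ⟨v, t, h, h', p⟩ := ih
    fin_cases i
    · exact ⟨0 :: 2 :: 0 :: v, _, by simp; omega, by simp; omega,
        by simpa [ev, mul_assoc] using pr2.swap.mul p⟩
    · exact ⟨3 :: v, _, by simpa, by simp; omega, by simpa [ev] using pr3.mul p⟩
    · exact ⟨1 :: v, _, by simpa, by simp; omega, by simpa [ev] using pr1.mul p⟩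
    · exact ⟨2 :: v, _, by simpa, by simp; omega, by simpa [ev] using pr2.mul p⟩

lemma deep (k : ℕ) : ∃ u : List (Fin 4), u.count 0 = 2 ^ k ∧ u.length = 2 ^ (k + 1) ∧
    ∀ n ≤ k, ¬ Small (ev u) n := by
  induction k with
  | zero =>
    refine ⟨[0, 1], rfl, rfl, fun n hn h => ?_⟩
    obtain rfl := Nat.le_zero.1 hn
    obtain ⟨s, hs, e⟩ := h [] rfl
    have e1 := e [false, false]
    rcases hs with rfl | ⟨i, rfl⟩
    · simp [ev, gp_apply, gen] at e1
    · fin_cases i <;> simp [ev, gp_apply, gen] at e1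
  | succ k ih =>
    obtain ⟨u, h1, h2, h3⟩ := ih
    obtain ⟨v, t, h4, h5, p⟩ := lift2 u
    refine ⟨v, by omega, by omega, fun n hn h => ?_⟩
    rcases n with _ | n
    · obtain ⟨s, hs, e⟩ := h [] rfl
      simp only [List.nil_append, ev_root] at e
      refine h3 0 (by omega) fun w hw => ?_
      obtain rfl := List.length_eq_zero_iff.1 hw
      simp only [List.nil_append, ev_root]
      have e' : ∀ w, s (true :: w) = true :: (ev u).1 w := fun w => by rw [← e, p.2]
      rcases hs with rfl | ⟨i, rfl⟩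
      · exact ⟨1, Or.inl rfl, fun w => by simpa using (e' w).symm⟩
      · fin_cases i
        · simpa [gp_apply, gen] using e' []
        · exact ⟨_, Or.inr ⟨2, rfl⟩, fun w => by simpa [gp_apply, gen] using (e' w).symm⟩
        · exact ⟨_, Or.inr ⟨3, rfl⟩, fun w => by simpa [gp_apply, gen] using (e' w).symm⟩
        · exact ⟨_, Or.inr ⟨1, rfl⟩, fun w => by simpa [gp_apply, gen] using (e' w).symm⟩
    · refine h3 n (by omega) fun w hw => ?_
      obtain ⟨s, hs, e⟩ := h (true :: w) (by simp [hw])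
      exact ⟨s, hs, fun w' => by simpa [p.2] using e w'⟩

lemma len_pos {g : G} (h : g ≠ 1) : 1 ≤ len g := by
  obtain ⟨u, rfl, hu⟩ := exists_geo g
  rcases u with _ | ⟨i, u⟩
  · exact absurd rfl h
  · simp only [List.length_cons] at hu; omega

theorem result : (∀ g : G, ∃ n, Small g n) ∧
    IsLeast {l : ℝ | ∃ c : ℝ, ∀ g : G, g ≠ 1 → (depth g : ℝ) ≤ l * Real.logb 2 (len g) + c} 1 := by
  have up : ∀ g : G, Small g (Nat.log 2 (len g) + 1 + 1) := fun g =>
    small_up _ g (by have := Nat.lt_pow_succ_log_self (b := 2) (by norm_num) (len g); omega)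
  refine ⟨fun g => ⟨_, up g⟩, ⟨2, fun g hg => ?_⟩, ?_⟩
  · have h1 : depth g ≤ Nat.log 2 (len g) + 1 + 1 := Nat.sInf_le (up g)
    have h2 : (Nat.log 2 (len g) : ℝ) ≤ Real.logb 2 (len g) := by
      simpa using Real.natLog_le_logb (len g) 2
    have h3 : (depth g : ℝ) ≤ (Nat.log 2 (len g) : ℝ) + 1 + 1 := by exact_mod_cast h1
    linarith
  · rintro l ⟨c, hc⟩
    by_contra hl
    push Not at hl
    have hm : 0 < 1 - max l 0 := sub_pos.2 (max_lt hl one_pos)
    obtain ⟨k, hk⟩ := exists_nat_gt (c / (1 - max l 0))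
    rw [div_lt_iff₀ hm] at hk
    obtain ⟨u, -, h2, h3⟩ := deep k
    have hne : ev u ≠ 1 := fun e => h3 0 (by omega) (small_zero (by rw [e, len_one]; omega))
    have h4 : k + 1 ≤ depth (ev u) := by
      by_contra hh
      exact h3 (depth (ev u)) (by omega) (Nat.sInf_mem (s := {n | Small (ev u) n}) ⟨_, up _⟩)
    have h5 : (k : ℝ) + 1 ≤ depth (ev u) := by exact_mod_cast h4
    have h6 : (1 : ℝ) ≤ len (ev u) := by exact_mod_cast len_pos hne
    have h7 : (len (ev u) : ℝ) ≤ 2 ^ ((k : ℝ) + 1) := by exact_mod_cast h2 ▸ len_le u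
    have h8 : Real.logb 2 (len (ev u)) ≤ k + 1 :=
      (Real.logb_le_iff_le_rpow one_lt_two (by linarith)).2 h7
    have h9 : 0 ≤ Real.logb 2 (len (ev u)) := Real.logb_nonneg one_lt_two h6
    have h10 := hc _ hne
    have h11 := mul_le_mul_of_nonneg_right (le_max_left l 0) h9
    have h12 := mul_le_mul_of_nonneg_left h8 (le_max_right l 0)
    nlinarith

end Pool.Agent.Results.MP_40d7e0_al.Depth
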